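import Pool.Agent.Helper48_PGL.Orbits
import Pool.Agent.Helper48_PGL.Field

/-!
# The group scheme `PGL₂` disproves Q1

For `𝒢 = PGL₂` (a Chevalley–Demazure group scheme of rank `n = 1`) both quotients are discrete sets:
`Δ(𝒢(K))/𝒢(R)` is the set of `PGL₂(R)`-orbits on `P¹(K)` and `Δ(𝒮(K))/𝒮(R)` is the set of
`SL₂(R)`-orbits on `P¹(K)`. An isomorphism of cell complexes between them is a bijection.
-/

set_option autoImplicit false

open NumberField Pool.Agent.Helper48_PGL

namespace Pool.Agent.Results.MP_a12d4e_al.PGLTwo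

/-- For a number field `K` with ring of integers `R`, the quotients `Δ(PGL₂(K))/PGL₂(R)` and
`Δ(SL₂(K))/SL₂(R)` are isomorphic if and only if the class number of `K` is odd; and there is a
number field (namely `ℚ(√-5)`) for which they are not isomorphic. -/
theorem result :
    (∀ (K : Type) [Field K] [NumberField K],
      Nonempty (PGLQuotient (𝓞 K) K ≃ SLQuotient (𝓞 K) K) ↔ Odd (classNumber K)) ∧
    ∃ (K : Type) (_ : Field K) (_ : NumberField K),
      IsEmpty (PGLQuotient (𝓞 K) K ≃ SLQuotient (𝓞 K) K) := by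
  have h1 : ∀ (K : Type) [Field K] [NumberField K],
      Nonempty (PGLQuotient (𝓞 K) K ≃ SLQuotient (𝓞 K) K) ↔ Odd (classNumber K) := by
    intro K _ _
    rw [nonempty_equiv_iff, classNumber, Nat.card_eq_fintype_card]
  refine ⟨h1, K5, inferInstance, inferInstance, ?_⟩
  rw [← not_nonempty_iff, nonempty_equiv_iff, Nat.not_odd_iff_even]
  exact even_classNumber

end Pool.Agent.Results.MP_a12d4e_al.PGLTwo
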