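import Pool.Agent.Helper64_Sp.Main

set_option autoImplicit false

open Pool.Agent.Helper64_Sp

/-- For every Dedekind domain `R` with fraction field `K` (in particular for the ring of integers of
a number field) the quotient of the spherical building of `Sp_{2n}(K)` by `Sp_{2n}(R)` is isomorphic
to the quotient of the building of `SL_2(K)^n` by `SL_2(R)^n`, by the natural map, which sends the
orbit of a flag of isotropic subspaces `W i` (of dimension `i + 1`) to the orbit of the tuples of
lines `L i` such that `W i ∩ R^{2n}` is isomorphic to `R^i ⊕ (L i ∩ R²)`. -/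
theorem Pool.Agent.Results.MP_a12d4e_al.SymplecticIso.result
    (R K : Type*) [CommRing R] [IsDedekindDomain R] [Field K] [Algebra R K] [IsFractionRing R K]
    (n : ℕ) :
    ∃ Φ : ∀ I : Finset (Fin n), SpCells R K n I ≃ SCells R K n I,
      (∀ (I J : Finset (Fin n)) (h : J ⊆ I) (c : SpCells R K n I),
        Φ J (SpCells.face h c) = SCells.face h (Φ I c)) ∧
      ∀ (I : Finset (Fin n)) (F : Flag K n I) (L : Tuple K n I),
        Φ I (Quot.mk _ F) = Quot.mk _ L ↔
          ∀ i : I, Nonempty (cap R (F.W i) ≃ₗ[R]
            (Fin ((i : Fin n) : ℕ) → R) × cap R (L i).1) :=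
  ⟨iso R K n, fun _ _ h c => iso_face h c, fun _ F L => iso_mk_iff F L⟩
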